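import Pool.Agent.H656R2.AK.Defs

/-!
# Node Blocking on acyclic digraphs
-/

namespace Pool.Agent.Q227.NB

/-- The occupancy after the token on `u` has been moved to `v`. An occupancy assigns to a vertex
`none` if it is vacant and `some p` if it carries a token of the player `p`. -/
def moveTo {V : Type*} [DecidableEq V] (o : V → Option Bool) (u v : V) : V → Option Bool :=
  fun w => if w = v then o u else if w = u then none else o w

/-- Node Blocking on the digraph with arc relation `E`. `MoverWins E p o`: with the occupancy `o`
the player `p`, who is to move, has a winning strategy (normal play). He moves one of his tokens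
along an arc `(u, v)` to a vacant vertex `v`, and after every answer of the opponent he wins again;
in particular he wins if the opponent has no legal move. -/
inductive MoverWins {V : Type*} [DecidableEq V] (E : V → V → Prop) (p : Bool) :
    (V → Option Bool) → Prop
  | mk {o : V → Option Bool} (u v : V) (hE : E u v) (hu : o u = some p) (hv : o v = none)
      (h : ∀ u' v', E u' v' → moveTo o u v u' = some (!p) → moveTo o u v v' = none →
        MoverWins E p (moveTo (moveTo o u v) u' v')) : MoverWins E p o

/-- The code of an instance: the adjacency matrix of the digraph, the list of the tokens and the
player to move. -/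
def code {n : ℕ} (E : Fin n → Fin n → Bool) (o : Fin n → Option Bool) (p : Bool) :
    List (List Bool) × List (Option Bool) × Bool :=
  (List.ofFn fun i => List.ofFn fun j => E i j, List.ofFn o, p)

/-- There is no directed cycle. -/
def Acyclic {n : ℕ} (E : Fin n → Fin n → Bool) : Prop :=
  ∀ x, ¬ Relation.TransGen (fun x y => E x y = true) x x

/-- The decision problem NB-DAG: given an acyclic digraph, the positions and the owners of the
tokens and the player to move, does this player have a winning strategy? -/
def NBDag (c : List (List Bool) × List (Option Bool) × Bool) : Prop :=
  ∃ (n : ℕ) (E : Fin n → Fin n → Bool) (o : Fin n → Option Bool) (p : Bool), code E o p = c ∧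
    Acyclic E ∧ MoverWins (fun x y => E x y = true) p o

/-- The same problem restricted to positions with exactly two vacant vertices. -/
def NBDagTwo (c : List (List Bool) × List (Option Bool) × Bool) : Prop :=
  ∃ (n : ℕ) (E : Fin n → Fin n → Bool) (o : Fin n → Option Bool) (p : Bool), code E o p = c ∧
    Acyclic E ∧ {x | o x = none}.ncard = 2 ∧ MoverWins (fun x y => E x y = true) p o

end Pool.Agent.Q227.NB
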