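import Pool.Agent.Q227.PX.Mem
import Pool.Agent.Q227.NB.Defs

/-!
# Transfer of games
-/

namespace Pool.Agent.Q227.NB

open Pool.Agent.H656R2.AK Pool.Agent.Q227.PX

theorem not_W_of_class' {α : Type*} {mv : α → α → Prop} (P : α → Prop)
    (hP : ∀ a b, P a → mv a b → ∃ c, mv b c ∧ P c) {a : α} (h : P a) : ¬ W mv a := by
  intro hW
  induction hW with
  | mk a b hab _ ih =>
    obtain ⟨c, hc, hPc⟩ := hP a b h hab
    exact ih c hc hPc

/-- the moves on positions -/
def mvB {V : Type*} [DecidableEq V] (E : V → V → Prop) (a b : (V → Option Bool) × Bool) : Prop :=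
  ∃ u v, E u v ∧ a.1 u = some a.2 ∧ a.1 v = none ∧ b = (moveTo a.1 u v, !a.2)

theorem moverWins_iff {V : Type*} [DecidableEq V] {E : V → V → Prop} (p : Bool)
    (o : V → Option Bool) : MoverWins E p o ↔ W (mvB E) (o, p) := by
  constructor
  · intro h
    induction h with
    | @mk o u v hE hu hv h ih =>
      refine W.mk _ (moveTo o u v, !p) ⟨u, v, hE, hu, hv, rfl⟩ ?_
      rintro c ⟨u', v', hE', hu', hv', rfl⟩
      have := ih u' v' hE' hu' hv'
      simpa using this
  · intro h
    have key : ∀ a : (V → Option Bool) × Bool, W (mvB E) a → MoverWins E a.2 a.1 := by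
      intro a h
      induction h with
      | mk a b h hb ih =>
        obtain ⟨o, p⟩ := a
        obtain ⟨u, v, hE, hu, hv, rfl⟩ := h
        refine MoverWins.mk u v hE hu hv fun u' v' hE' hu' hv' => ?_
        have := ih (moveTo (moveTo o u v) u' v', !!p) ⟨u', v', hE', hu', hv', rfl⟩
        simpa using this
    exact key _ h

/-- the potential -/
noncomputable def pot {V : Type*} [Fintype V] (h : V → ℕ) (o : V → Option Bool) : ℕ :=
  ∑ v, if o v = none then 0 else h v

theorem pot_moveTo {V : Type*} [Fintype V] [DecidableEq V] {h : V → ℕ} {o : V → Option Bool}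
    {u v : V} (hu : o u ≠ none) (hv : o v = none) :
    pot h (moveTo o u v) + h u = pot h o + h v := by
  have huv : u ≠ v := fun e => hu (e ▸ hv)
  unfold pot
  have h1 : ∀ f : V → ℕ, ∑ w, f w = f u + (f v + ∑ w ∈ (Finset.univ.erase u).erase v, f w) := by
    intro f
    rw [← Finset.add_sum_erase Finset.univ f (Finset.mem_univ u),
      ← Finset.add_sum_erase (Finset.univ.erase u) f (Finset.mem_erase.2 ⟨huv.symm,
        Finset.mem_univ v⟩)]
  rw [h1 (fun w => if moveTo o u v w = none then 0 else h w),
    h1 (fun w => if o w = none then 0 else h w)]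
  have h2 : ∑ w ∈ (Finset.univ.erase u).erase v, (if moveTo o u v w = none then 0 else h w) =
      ∑ w ∈ (Finset.univ.erase u).erase v, (if o w = none then 0 else h w) := by
    refine Finset.sum_congr rfl fun w hw => ?_
    rw [Finset.mem_erase, Finset.mem_erase] at hw
    unfold moveTo
    rw [if_neg hw.1, if_neg hw.2.1]
  rw [h2]
  have h3 : moveTo o u v u = none := by
    unfold moveTo
    rw [if_neg huv, if_pos rfl]
  have h4 : moveTo o u v v = o u := by
    unfold moveTo
    rw [if_pos rfl]
  simp only [h3, h4, hv, hu, if_true, if_false]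
  omega

theorem wf_mvB {V : Type*} [Fintype V] [DecidableEq V] {E : V → V → Prop} {h : V → ℕ}
    (hE : ∀ u v, E u v → h v < h u) : WellFounded fun b a => mvB E a b := by
  refine Subrelation.wf (r := InvImage (· < ·) fun a : (V → Option Bool) × Bool => pot h a.1) ?_
    (InvImage.wf _ wellFounded_lt)
  rintro b a ⟨u, v, h1, h2, h3, rfl⟩
  change pot h (moveTo a.1 u v) < pot h a.1
  have e1 := pot_moveTo (h := h) (o := a.1) (u := u) (v := v) (by rw [h2]; simp) h3
  have e2 := hE u v h1
  omega

end Pool.Agent.Q227.NB
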