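import Pool.Agent.Q227.NB.Bis

/-!
# Node Blocking on acyclic digraphs is in PSPACE
-/

namespace Pool.Agent.Q227.NB

open Pool.Agent.NPC Pool.Agent.H623R2.PS Pool.Agent.H656R2.AK Pool.Agent.Q227.PX

set_option linter.unusedSectionVars false

/-- instances -/
abbrev Cd := List (List Bool) × List (Option Bool) × Bool

/-- positions: matrix, tokens, player, fuel -/
abbrev Pn := List (List Bool) × List (Option Bool) × Bool × List Bool

/-- replacing an entry -/
def setL (l : List (Option Bool)) (u : ℕ) (a : Option Bool) : List (Option Bool) :=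
  (List.range l.length).map fun i => if i = u then a else l.getD i none

theorem setL_eq (l : List (Option Bool)) (u : ℕ) (a : Option Bool) : setL l u a = l.set u a := by
  unfold setL
  refine List.ext_getElem (by simp) fun i hi hi' => ?_
  rw [List.getElem_map, List.getElem_range, List.getElem_set]
  have hi2 : i < l.length := by simpa using hi'
  by_cases h : u = i
  · rw [if_pos h, if_pos h.symm]
  · rw [if_neg h, if_neg (Ne.symm h), List.getD_eq_getElem _ _ hi2]

/-- the moves -/
def moves (b : Pn) : List Pn :=
  if b.2.2.2.isEmpty = true then []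
  else ((List.range b.1.length ×ˢ List.range b.1.length).filter fun q =>
    ent b.1 q.1 q.2 && (decide (b.2.1.getD q.1 none = some b.2.2.1) &&
      decide (b.2.1.getD q.2 none = none))).map fun q =>
        (b.1, setL (setL b.2.1 q.1 none) q.2 (some b.2.2.1), !b.2.2.1, b.2.2.2.tail)

theorem poly_setL : NPC.Poly (fun q : List (Option Bool) × ℕ × Option Bool =>
    setL q.1 q.2.1 q.2.2) := by
  unfold setL
  have h : UPoly (fun q : List (Option Bool) × ℕ × Option Bool => q.1.length) :=
    UPoly.length (by fun_prop)
  exact NPC.Poly.map (l := fun q : List (Option Bool) × ℕ × Option Bool => List.range q.1.length)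
    (F := fun q i => if i = q.2.1 then q.2.2 else q.1.getD i none) h.range (by fun_prop)

theorem poly_setL' {α : Type} [TEnc α] {l : α → List (Option Bool)} {u : α → ℕ}
    {a : α → Option Bool} (h1 : Poly l) (h2 : Poly u) (h3 : Poly a) :
    Poly (fun x => setL (l x) (u x) (a x)) := poly_setL.comp (h1.pair (h2.pair h3))

attribute [fun_prop] poly_setL'

theorem poly_moves : NPC.Poly moves := by
  unfold moves
  refine NPC.Poly.ite (by fun_prop) (NPC.Poly.const _) ?_
  have h : UPoly (fun b : Pn => b.1.length) := UPoly.length (by fun_prop)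
  have h1 := h.range
  have h2 : NPC.Poly (fun b : Pn => (List.range b.1.length ×ˢ List.range b.1.length).filter
      fun q => ent b.1 q.1 q.2 && (decide (b.2.1.getD q.1 none = some b.2.2.1) &&
      decide (b.2.1.getD q.2 none = none))) :=
    NPC.Poly.filter (l := fun b : Pn => List.range b.1.length ×ˢ List.range b.1.length)
      (p := fun b q => ent b.1 q.1 q.2 && (decide (b.2.1.getD q.1 none = some b.2.2.1) &&
      decide (b.2.1.getD q.2 none = none))) (by fun_prop) (by fun_prop)
  exact NPC.Poly.map (F := fun (b : Pn) (q : ℕ × ℕ) =>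
    ((b.1, setL (setL b.2.1 q.1 none) q.2 (some b.2.2.1), !b.2.2.1, b.2.2.2.tail) : Pn)) h2
    (by fun_prop)

theorem mem_moves {M : List (List Bool)} {oc : List (Option Bool)} {p : Bool} {fu : List Bool}
    {b' : Pn} : b' ∈ moves (M, oc, p, fu) ↔ fu ≠ [] ∧ ∃ u v, u < M.length ∧ v < M.length ∧
      ent M u v = true ∧ oc.getD u none = some p ∧ oc.getD v none = none ∧
      b' = (M, (oc.set u none).set v (some p), !p, fu.tail) := by
  unfold moves
  simp only
  by_cases hf : fu = []
  · subst hf
    simp
  · have hf' : ¬ fu.isEmpty = true := by rwa [List.isEmpty_iff]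
    rw [if_neg hf', List.mem_map]
    constructor
    · rintro ⟨⟨u, v⟩, h, rfl⟩
      rw [List.mem_filter, mem_prod] at h
      simp only [List.mem_range, Bool.and_eq_true, decide_eq_true_eq] at h
      refine ⟨hf, u, v, h.1.1, h.1.2, h.2.1, h.2.2.1, h.2.2.2, ?_⟩
      rw [setL_eq, setL_eq]
    · rintro ⟨-, u, v, h1, h2, h3, h4, h5, rfl⟩
      refine ⟨(u, v), ?_, ?_⟩
      · rw [List.mem_filter, mem_prod]
        simp only [List.mem_range, Bool.and_eq_true, decide_eq_true_eq]
        exact ⟨⟨h1, h2⟩, h3, h4, h5⟩
      · simp only [setL_eq]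

theorem sz_set {u : ℕ} {a d : Option Bool} : ∀ {l : List (Option Bool)}, u < l.length →
    sz (l.set u a) + sz (l.getD u d) = sz l + sz a := by
  induction u with
  | zero =>
    intro l h
    cases l with
    | nil => simp at h
    | cons x l =>
      simp only [List.set_cons_zero, List.getD_cons_zero, sz_list_cons]
      omega
  | succ u ih =>
    intro l h
    cases l with
    | nil => simp at h
    | cons x l =>
      have := ih (l := l) (by simpa using h)
      simp only [List.set_cons_succ, List.getD_cons_succ, sz_list_cons]
      omega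

theorem sz_moves (b : Pn) : ∀ b' ∈ moves b, sz b' ≤ sz b := by
  obtain ⟨M, oc, p, fu⟩ := b
  intro b' hb'
  rw [mem_moves] at hb'
  obtain ⟨hf, u, v, h1, h2, h3, h4, h5, rfl⟩ := hb'
  have hu : u < oc.length := by
    by_contra h
    rw [List.getD_eq_default _ _ (by omega)] at h4
    simp at h4
  have e1 := sz_set (u := u) (a := none) (d := none) hu
  rw [h4] at e1
  have e2 := sz_tail fu hf
  have e3 := sz_bool_le (!p)
  have e4 := sz_pos p
  have e5 : sz ((oc.set u none).set v (some p)) ≤ sz oc := by
    by_cases hv : v < oc.length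
    · have e6 := sz_set (u := v) (a := some p) (d := none) (l := oc.set u none) (by simpa using hv)
      have huv : u ≠ v := by
        rintro rfl
        rw [h4] at h5
        simp at h5
      have e7 : (oc.set u none).getD v none = none := by
        rw [List.getD_eq_getElem _ _ (by simpa using hv), List.getElem_set_ne huv,
          ← List.getD_eq_getElem _ none hv, h5]
      rw [e7] at e6
      omega
    · rw [List.set_eq_of_length_le (by simpa using hv)]
      have : sz (none : Option Bool) ≤ sz (some p) := by simp
      omega
  cases p <;> simp only [sz_pair, Bool.not_true, Bool.not_false, sz_true, sz_false] <;> omega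

theorem length_moves (b : Pn) : (moves b).length ≤ b.1.length * b.1.length := by
  unfold moves
  split_ifs
  · simp
  · rw [List.length_map]
    refine (List.length_filter_le _ _).trans ?_
    rw [List.length_product, List.length_range]

theorem moves_fst (b : Pn) : ∀ b' ∈ moves b, b'.1 = b.1 ∧
    b'.2.2.2.length < b.2.2.2.length := by
  obtain ⟨M, oc, p, fu⟩ := b
  intro b' hb'
  rw [mem_moves] at hb'
  obtain ⟨hf, u, v, h1, h2, h3, h4, h5, rfl⟩ := hb'
  have := List.length_pos_iff.2 hf
  refine ⟨rfl, ?_⟩
  simp only [List.length_tail]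
  omega

/-! ### Acyclicity -/

/-- keep the vertices with an out-neighbour -/
def stp (M : List (List Bool)) (S : List ℕ) : List ℕ :=
  S.filter fun x => S.any fun y => ent M x y

/-- the iterates -/
def it (M : List (List Bool)) (k : ℕ) : List ℕ := (stp M)^[k] (List.range M.length)

theorem it_zero (M : List (List Bool)) : it M 0 = List.range M.length := rfl

theorem it_succ (M : List (List Bool)) (k : ℕ) : it M (k + 1) = stp M (it M k) := by
  unfold it
  rw [Function.iterate_succ_apply']

theorem mem_it_succ {M : List (List Bool)} {k x : ℕ} : x ∈ it M (k + 1) ↔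
    x ∈ it M k ∧ ∃ y ∈ it M k, ent M x y = true := by
  rw [it_succ]
  unfold stp
  rw [List.mem_filter, List.any_eq_true]

theorem it_range {M : List (List Bool)} {k x : ℕ} (h : x ∈ it M k) : x < M.length := by
  induction k with
  | zero => simpa [it_zero] using h
  | succ k ih => exact ih (mem_it_succ.1 h).1

theorem it_edge {M : List (List Bool)} {x y : ℕ} (hx : x < M.length) (h : ent M x y = true)
    (k : ℕ) : y ∈ it M k → x ∈ it M (k + 1) := by
  induction k with
  | zero =>
    intro hy
    exact mem_it_succ.2 ⟨by simpa [it_zero] using hx, y, hy, h⟩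
  | succ k ih =>
    intro hy
    exact mem_it_succ.2 ⟨ih (mem_it_succ.1 hy).1, y, hy, h⟩

/-- the heights -/
noncomputable def hgt (M : List (List Bool)) (x : ℕ) : ℕ := by
  classical
  exact Nat.findGreatest (fun k => x ∈ it M k) M.length

theorem hgt_le (M : List (List Bool)) (x : ℕ) : hgt M x ≤ M.length := by
  unfold hgt
  exact Nat.findGreatest_le _

theorem hgt_lt {M : List (List Bool)} (hM : it M M.length = []) {x y : ℕ} (hx : x < M.length)
    (hy : y < M.length) (h : ent M x y = true) : hgt M y < hgt M x := by
  classical
  have h1 : y ∈ it M (hgt M y) := by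
    have := Nat.findGreatest_spec (P := fun k => y ∈ it M k) (m := 0) (n := M.length)
      (Nat.zero_le _) (by simpa [it_zero] using hy)
    unfold hgt
    convert this
  have h2 : hgt M y ≠ M.length := by
    intro e
    rw [e, hM] at h1
    simp at h1
  have h3 := hgt_le M y
  have h4 := it_edge hx h _ h1
  have h5 : hgt M y + 1 ≤ hgt M x := by
    have := Nat.le_findGreatest (P := fun k => x ∈ it M k) (m := hgt M y + 1) (n := M.length)
      (by omega) h4
    conv_rhs => unfold hgt
    convert this
  omega

/-- the test for instances -/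
def valid (c : Cd) : Bool :=
  (decide (c.2.1.length = c.1.length) && c.1.all fun r => decide (r.length = c.1.length)) &&
    ((List.range c.1.length).foldl (fun S _ => stp c.1 S) (List.range c.1.length)).isEmpty

theorem poly_valid : NPC.Poly valid := by
  have h : UPoly (fun c : Cd => c.1.length) := UPoly.length (by fun_prop)
  have hp := h.toPoly
  have h1 := h.range
  have h4 : NPC.Poly (fun c : Cd => c.1.all fun r => decide (r.length = c.1.length)) := by
    refine NPC.Poly.all (l := fun c : Cd => c.1)
      (p := fun c r => decide (r.length = c.1.length)) (by fun_prop) ?_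
    have h5 : NPC.Poly (fun q : Cd × List Bool => q.2.length) :=
      UPoly.toPoly (UPoly.length (l := fun q : Cd × List Bool => q.2) (by fun_prop))
    have h6 : NPC.Poly (fun q : Cd × List Bool => q.1.1.length) := hp.comp (by fun_prop)
    fun_prop
  have h7 : NPC.Poly (fun c : Cd => decide (c.2.1.length = c.1.length)) := by
    have h8 : NPC.Poly (fun q : Cd => q.2.1.length) :=
      UPoly.toPoly (UPoly.length (l := fun q : Cd => q.2.1) (by fun_prop))
    fun_prop
  unfold valid
  refine NPC.Poly.and (NPC.Poly.and h7 h4) ?_
  obtain ⟨P, hP⟩ := NPC.Poly.sz_le h1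
  have h9 : NPC.Poly (fun c : Cd =>
      (List.range c.1.length).foldl (fun S _ => stp c.1 S) (List.range c.1.length)) := by
    refine NPC.Poly.foldl (l := fun c : Cd => List.range c.1.length)
      (s := fun c : Cd => List.range c.1.length) (F := fun c S _ => stp c.1 S) h1 h1 ?_ P ?_
    · unfold stp
      refine NPC.Poly.filter (l := fun q : Cd × List ℕ × ℕ => q.2.1)
        (p := fun q x => q.2.1.any fun y => ent q.1.1 x y) (by fun_prop) ?_
      exact NPC.Poly.any (l := fun q : (Cd × List ℕ × ℕ) × ℕ => q.1.2.1)
        (p := fun q y => ent q.1.1.1 q.2 y) (by fun_prop) (by fun_prop)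
    · intro c k hk
      refine le_trans ?_ (hP c)
      generalize (List.range c.1.length).take k = t
      have : ∀ (t : List ℕ) (S : List ℕ), sz (t.foldl (fun S _ => stp c.1 S) S) ≤ sz S := by
        intro t
        induction t with
        | nil => intro S; exact le_rfl
        | cons a t ih =>
          intro S
          rw [List.foldl_cons]
          exact (ih _).trans (sz_filter_le' _ _)
      exact this t _
  exact (h9.comp (NPC.Poly.id)).congr (fun c => rfl) |> fun h => by fun_prop

/-- the digraph of an instance -/
def eM (c : Cd) (i j : Fin c.1.length) : Bool := ent c.1 i j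

/-- the occupancy of an instance -/
def oM (c : Cd) (i : Fin c.1.length) : Option Bool := c.2.1.getD i none

theorem foldl_it (M : List (List Bool)) :
    (List.range M.length).foldl (fun S _ => stp M S) (List.range M.length) = it M M.length := by
  rw [List.foldl_const, List.length_range]
  rfl

theorem acyclic_iff {n : ℕ} (E : Fin n → Fin n → Bool) (M : List (List Bool)) (hn : M.length = n)
    (hM : ∀ i j : Fin n, ent M i j = E i j) : it M M.length = [] ↔ Acyclic E := by
  constructor
  · intro h x hx
    have key : ∀ y, Relation.TransGen (fun x y => E x y = true) x y → hgt M y < hgt M x := by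
      intro y hy
      induction hy with
      | single h' => exact hgt_lt h (by omega) (by omega) (by rw [hM]; exact h')
      | tail _ h' ih => exact (hgt_lt h (by omega) (by omega) (by rw [hM]; exact h')).trans ih
    exact lt_irrefl _ (key x hx)
  · intro h
    have wf : WellFounded fun y x : Fin n => Relation.TransGen (fun x y => E x y = true) x y := by
      haveI : IsTrans (Fin n) fun y x => Relation.TransGen (fun x y => E x y = true) x y :=
        ⟨fun a b c hab hbc => hbc.trans hab⟩
      haveI : Std.Irrefl fun y x : Fin n => Relation.TransGen (fun x y => E x y = true) x y :=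
        ⟨fun a => h a⟩
      exact Finite.wellFounded_of_trans_of_irrefl _
    have key : ∀ k, (it M k).length + k ≤ M.length ∨ it M k = [] := by
      intro k
      induction k with
      | zero => left; simp [it_zero]
      | succ k ih =>
        by_cases hk : it M k = []
        · right
          rw [it_succ, hk]
          rfl
        · left
          have ih' := ih.resolve_right hk
          obtain ⟨a, ha⟩ := List.exists_mem_of_ne_nil _ hk
          have ha' := it_range ha
          obtain ⟨m, hm, hmin⟩ := wf.has_min {x : Fin n | x.val ∈ it M k} ⟨⟨a, by omega⟩, ha⟩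
          have : (it M (k + 1)).length < (it M k).length := by
            rw [it_succ]
            unfold stp
            rw [List.length_filter_lt_length_iff_exists]
            refine ⟨m.val, hm, ?_⟩
            rw [List.any_eq_true]
            rintro ⟨y, hy, hE⟩
            have hy' := it_range hy
            exact hmin ⟨y, by omega⟩ hy (.single (by
              have := hM m ⟨y, by omega⟩
              simp only at this
              rw [← this]
              exact hE))
          omega
    rcases key M.length with h1 | h1
    · have : (it M M.length).length = 0 := by omega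
      exact List.length_eq_zero_iff.1 this
    · exact h1

theorem code_len1 {n : ℕ} (E : Fin n → Fin n → Bool) (o : Fin n → Option Bool) (p : Bool) :
    (code E o p).1.length = n := by simp [code]

theorem code_len2 {n : ℕ} (E : Fin n → Fin n → Bool) (o : Fin n → Option Bool) (p : Bool) :
    (code E o p).2.1.length = n := by simp [code]

theorem ent_code {n : ℕ} (E : Fin n → Fin n → Bool) (o : Fin n → Option Bool) (p : Bool)
    (i j : Fin n) : ent (code E o p).1 i j = E i j := by
  simp [ent, code, List.getD_eq_getElem?_getD]

theorem getD_code {n : ℕ} (E : Fin n → Fin n → Bool) (o : Fin n → Option Bool) (p : Bool)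
    (i : Fin n) : (code E o p).2.1.getD i none = o i := by
  simp [code, List.getD_eq_getElem?_getD]

theorem code_inj' {n : ℕ} {E : Fin n → Fin n → Bool} {o : Fin n → Option Bool} {p : Bool} {m : ℕ}
    {E' : Fin m → Fin m → Bool} {o' : Fin m → Option Bool} {p' : Bool}
    (h : code E' o' p' = code E o p)
    (P : ∀ n : ℕ, (Fin n → Fin n → Bool) → (Fin n → Option Bool) → Bool → Prop)
    (hP : P m E' o' p') : P n E o p := by
  have e : m = n := by
    have := congrArg (fun c => c.1.length) h
    simpa [code_len1] using this
  subst e
  have e1 : E' = E := by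
    funext i j
    have := ent_code E' o' p' i j
    rw [h, ent_code] at this
    exact this.symm
  have e2 : o' = o := by
    funext i
    have := getD_code E' o' p' i
    rw [h, getD_code] at this
    exact this.symm
  have e3 : p' = p := congrArg (fun c => c.2.2) h
  rw [← e1, ← e2, ← e3]
  exact hP

theorem valid_iff (c : Cd) : valid c = true ↔
    (c.2.1.length = c.1.length ∧ ∀ r ∈ c.1, r.length = c.1.length) ∧ Acyclic (eM c) := by
  unfold valid
  rw [Bool.and_eq_true, Bool.and_eq_true, decide_eq_true_eq, List.all_eq_true, foldl_it,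
    List.isEmpty_iff, acyclic_iff (eM c) c.1 rfl fun i j => rfl]
  simp only [decide_eq_true_eq]

theorem code_eM {c : Cd} (h : valid c = true) : code (eM c) (oM c) c.2.2 = c := by
  rw [valid_iff] at h
  obtain ⟨⟨h1, h2⟩, -⟩ := h
  obtain ⟨M, oc, p⟩ := c
  simp only at h1 h2
  unfold code
  refine Prod.ext ?_ (Prod.ext ?_ rfl)
  · simp only
    refine List.ext_getElem (by simp) fun i hi hi' => ?_
    have h3 := h2 M[i] (List.getElem_mem _)
    rw [List.getElem_ofFn]
    refine List.ext_getElem (by simp [h3]) fun j hj hj' => ?_
    rw [List.getElem_ofFn]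
    simp [eM, ent, List.getD_eq_getElem?_getD, hi', hj']
  · simp only
    refine List.ext_getElem (by simp [h1]) fun i hi hi' => ?_
    rw [List.getElem_ofFn]
    simp only [oM]
    rw [List.getD_eq_getElem _ _ hi']

theorem valid_code {n : ℕ} {E : Fin n → Fin n → Bool} {o : Fin n → Option Bool} {p : Bool}
    (h : Acyclic E) : valid (code E o p) = true := by
  unfold valid
  rw [Bool.and_eq_true, Bool.and_eq_true, decide_eq_true_eq, List.all_eq_true, foldl_it,
    List.isEmpty_iff]
  refine ⟨⟨by rw [code_len1, code_len2], ?_⟩, ?_⟩
  · intro x hx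
    rw [decide_eq_true_eq, code_len1]
    unfold code at hx
    rw [List.mem_ofFn] at hx
    obtain ⟨i, rfl⟩ := hx
    simp
  · rw [acyclic_iff E (code E o p).1 (code_len1 _ _ _) (ent_code E o p)]
    exact h

/-- the relation between positions -/
structure Rl (c : Cd) (b : Pn) (a : (Fin c.1.length → Option Bool) × Bool) : Prop where
  m : b.1 = c.1
  p : b.2.2.1 = a.2
  l : b.2.1.length = c.1.length
  o : ∀ i : Fin c.1.length, b.2.1.getD i none = a.1 i
  f : pot (fun i : Fin c.1.length => hgt c.1 i) a.1 ≤ b.2.2.2.length

theorem Rl.next {c : Cd} (hc : it c.1 c.1.length = []) {b : Pn}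
    {a : (Fin c.1.length → Option Bool) × Bool} (h : Rl c b a) {u v : Fin c.1.length}
    (hE : eM c u v = true) (hu : a.1 u = some a.2) (hv : a.1 v = none) :
    b.2.2.2 ≠ [] ∧ Rl c (b.1, (b.2.1.set u none).set v (some b.2.2.1), !b.2.2.1, b.2.2.2.tail)
      (moveTo a.1 u v, !a.2) := by
  have e1 := pot_moveTo (h := fun i : Fin c.1.length => hgt c.1 i) (o := a.1) (u := u) (v := v)
    (by rw [hu]; simp) hv
  have e2 : hgt c.1 v < hgt c.1 u := hgt_lt hc u.isLt v.isLt hE
  have e3 := h.f
  have huv : u ≠ v := by
    rintro rfl
    rw [hu] at hv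
    simp at hv
  refine ⟨?_, h.m, by simp [h.p], by simp [h.l], ?_, ?_⟩
  · intro e
    rw [e] at e3
    simp only [List.length_nil] at e3
    omega
  · intro i
    have hi : i.val < b.2.1.length := by rw [h.l]; exact i.isLt
    simp only
    rw [List.getD_eq_getElem _ _ (by simpa using hi), List.getElem_set, List.getElem_set]
    unfold moveTo
    by_cases h1 : i = v
    · subst h1
      rw [if_pos rfl, if_pos rfl, hu, h.p]
    · have h1' : ¬ v.val = i.val := fun e => h1 (Fin.ext e.symm)
      rw [if_neg h1', if_neg h1]
      by_cases h2 : i = u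
      · subst h2
        rw [if_pos rfl, if_pos rfl]
      · have h2' : ¬ u.val = i.val := fun e => h2 (Fin.ext e.symm)
        rw [if_neg h2', if_neg h2, ← h.o i, List.getD_eq_getElem _ _ hi]
  · simp only [List.length_tail]
    omega

theorem W_list {c : Cd} (hc : it c.1 c.1.length = []) {b : Pn}
    {a : (Fin c.1.length → Option Bool) × Bool} (h : Rl c b a) :
    W (mvL moves) b ↔ W (mvB fun i j => eM c i j = true) a := by
  refine W_iff_bisim (Rl c) ?_ ?_ h
  · intro b a b' h hb'
    obtain ⟨M, oc, p, fu⟩ := b
    have hb2 : b' ∈ moves (M, oc, p, fu) := hb'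
    rw [mem_moves] at hb2
    obtain ⟨hf, u, v, h1, h2, h3, h4, h5, rfl⟩ := hb2
    have hm : M = c.1 := h.m
    have hp : p = a.2 := h.p
    subst hm
    have hu : a.1 ⟨u, h1⟩ = some a.2 := by
      rw [← h.o, ← hp]
      exact h4
    have hv : a.1 ⟨v, h2⟩ = none := by
      rw [← h.o]
      exact h5
    exact ⟨_, ⟨⟨u, h1⟩, ⟨v, h2⟩, h3, hu, hv, rfl⟩,
      (h.next hc (u := ⟨u, h1⟩) (v := ⟨v, h2⟩) h3 hu hv).2⟩
  · rintro b a a' h ⟨u, v, hE, hu, hv, rfl⟩
    obtain ⟨h1, h2⟩ := h.next hc hE hu hv
    refine ⟨_, ?_, h2⟩
    obtain ⟨M, oc, p, fu⟩ := b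
    change _ ∈ moves (M, oc, p, fu)
    have hm : M = c.1 := h.m
    have hp : p = a.2 := h.p
    subst hm
    rw [mem_moves]
    refine ⟨h1, u.val, v.val, u.isLt, v.isLt, hE, ?_, ?_, rfl⟩
    · have := h.o u
      rw [hu, ← hp] at this
      exact this
    · have := h.o v
      rw [hv] at this
      exact this

/-- the initial position of a valid instance -/
def pos (c : Cd) : Pn := (c.1, c.2.1, c.2.2, List.replicate (c.1.length * c.1.length) true)

theorem W_list' {c : Cd} (h : valid c = true) :
    W (mvL moves) (pos c) ↔ MoverWins (fun i j => eM c i j = true) c.2.2 (oM c) := by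
  have hc : it c.1 c.1.length = [] := by
    rw [acyclic_iff (eM c) c.1 rfl fun i j => rfl]
    exact ((valid_iff c).1 h).2
  rw [moverWins_iff]
  refine W_list hc ⟨rfl, rfl, ((valid_iff c).1 h).1.1, fun i => rfl, ?_⟩
  unfold pot pos
  rw [List.length_replicate]
  calc (∑ i : Fin c.1.length, if oM c i = none then 0 else hgt c.1 i)
      ≤ ∑ _i : Fin c.1.length, c.1.length := by
        refine Finset.sum_le_sum fun i _ => ?_
        split_ifs
        · omega
        · exact hgt_le _ _
    _ = _ := by simp

theorem nbDag_valid (c : Cd) : NBDag c ↔ valid c = true ∧ W (mvL moves) (pos c) := by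
  constructor
  · rintro ⟨n, E, o, p, rfl, h, hW⟩
    have hv : valid (code E o p) = true := valid_code h
    refine ⟨hv, ?_⟩
    rw [W_list' hv]
    exact code_inj' (code_eM hv).symm
      (fun n E o p => MoverWins (fun i j => E i j = true) p o) hW
  · rintro ⟨hv, hW⟩
    rw [W_list' hv] at hW
    exact ⟨_, eM c, oM c, c.2.2, code_eM hv, ((valid_iff c).1 hv).2, hW⟩

theorem nbDag_mem : InPSPACE (lang NBDag) := by
  have hdec : NPC.Poly (fun x : List Bool => (unbits Cd x).getD ([[true]], [], true)) :=
    NPC.Poly.optGetD poly_unbits (NPC.Poly.const ([[true]], [], true))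
  have hlen : UPoly (fun x : List Bool => ((unbits Cd x).getD ([[true]], [], true)).1.length) :=
    UPoly.length (NPC.Poly.fst hdec)
  have hrep : NPC.Poly (fun x : List Bool => List.replicate
      (((unbits Cd x).getD ([[true]], [], true)).1.length *
        ((unbits Cd x).getD ([[true]], [], true)).1.length) true) :=
    poly_replicate (hlen.mul hlen) true
  have hinit : NPC.Poly (fun x : List Bool => pos ((unbits Cd x).getD ([[true]], [], true))) :=
    NPC.Poly.pair (NPC.Poly.fst hdec) (NPC.Poly.pair (NPC.Poly.fst (NPC.Poly.snd hdec))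
      (NPC.Poly.pair (NPC.Poly.snd (NPC.Poly.snd hdec)) hrep))
  refine inPSPACE_of_game hinit (good := fun b => valid (b.1, b.2.1, b.2.2.1))
    (poly_valid.comp (f := fun b : Pn => (b.1, b.2.1, b.2.2.1)) (by fun_prop)) poly_moves sz_moves
    (w := fun x => ((unbits Cd x).getD ([[true]], [], true)).1.length *
        ((unbits Cd x).getD ([[true]], [], true)).1.length + 1) ?_
    (fun x b => b.1 = ((unbits Cd x).getD ([[true]], [], true)).1 ∧
      b.2.2.2.length ≤ ((unbits Cd x).getD ([[true]], [], true)).1.length *
        ((unbits Cd x).getD ([[true]], [], true)).1.length)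
    (fun b => b.2.2.2.length) ?_ ?_ ?_ ?_
  · exact (hlen.mul hlen).add (UPoly.const 1)
  · intro x
    simp [pos]
  · intro x b hb b' hb'
    obtain ⟨h1, h2⟩ := moves_fst b b' hb'
    exact ⟨⟨by rw [h1, hb.1], by omega⟩, h2⟩
  · intro x b hb
    have := length_moves b
    rw [hb.1] at this
    exact ⟨by omega, by omega⟩
  · intro x
    rw [mem_lang_iff]
    constructor
    · rintro ⟨M, hM, h⟩
      rw [hM, Option.getD_some]
      exact (nbDag_valid M).1 h
    · intro h
      cases hx : unbits Cd x with
      | none =>
        rw [hx, Option.getD_none] at h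
        exact absurd h.1 (by decide)
      | some M =>
        rw [hx, Option.getD_some] at h
        exact ⟨M, rfl, (nbDag_valid M).2 h⟩

end Pool.Agent.Q227.NB
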