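import Pool.Agent.Q227.NB.Str
import Pool.Agent.Q227.NB.Mem
import Pool.Agent.Q227.PX.Red

/-!
# The reduction
-/

namespace Pool.Agent.Q227.NB

open Pool.Agent.NPC Pool.Agent.H623R2.PS Pool.Agent.H656R2.AK Pool.Agent.Q227.PX

set_option linter.unusedSectionVars false

/-- labels of the vertices -/
abbrev Lb := ℕ × ℕ × Bool

/-- the vertex of a label -/
def toV (x : Lb) : Vx :=
  match x with
  | (0, i, _) => Vx.m i
  | (1, i, e) => Vx.o i e
  | (2, i, e) => Vx.n i e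
  | (3, i, e) => Vx.k i e
  | (4, i, _) => Vx.a i
  | (5, i, e) => Vx.b i e
  | (6, _, _) => Vx.q
  | (7, i, _) => Vx.c i
  | (_, i, e) => Vx.l i e

/-- the label of a vertex -/
def ofV (v : Vx) : Lb :=
  match v with
  | Vx.m i => (0, i, false)
  | Vx.o i e => (1, i, e)
  | Vx.n i e => (2, i, e)
  | Vx.k i e => (3, i, e)
  | Vx.a i => (4, i, false)
  | Vx.b i e => (5, i, e)
  | Vx.q => (6, 0, false)
  | Vx.c i => (7, i, false)
  | Vx.l i e => (8, i, e)

theorem toV_ofV (v : Vx) : toV (ofV v) = v := by cases v <;> rfl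

/-- the test for labels -/
def okL (x : Lb) : Bool :=
  if x.1 = 0 ∨ x.1 = 4 ∨ x.1 = 7 then !x.2.2
  else if x.1 = 6 then decide (x.2.1 = 0) && !x.2.2 else true

/-- the list of labels -/
def VL (Q : QF) : List Lb :=
  (List.range 9 ×ˢ (List.range (Q.1.length + Q.2.length + 1) ×ˢ [false, true])).filter okL

theorem mem_VL {Q : QF} {x : Lb} : x ∈ VL Q ↔
    (x.1 < 9 ∧ x.2.1 < Q.1.length + Q.2.length + 1) ∧ okL x = true := by
  unfold VL
  rw [List.mem_filter, mem_prod, mem_prod, List.mem_range, List.mem_range]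
  refine and_congr_left fun _ => ?_
  have : x.2.2 ∈ [false, true] := by cases x.2.2 <;> simp
  simp [this]

theorem nodup_VL (Q : QF) : (VL Q).Nodup := by
  unfold VL
  refine List.Nodup.filter _ ?_
  exact (List.nodup_range).product ((List.nodup_range).product (by decide))

theorem ofV_toV {x : Lb} (h1 : x.1 < 9) (h2 : okL x = true) : ofV (toV x) = x := by
  obtain ⟨t, i, e⟩ := x
  simp only at h1
  unfold okL at h2
  have ht : t = 0 ∨ t = 1 ∨ t = 2 ∨ t = 3 ∨ t = 4 ∨ t = 5 ∨ t = 6 ∨ t = 7 ∨ t = 8 := by omega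
  rcases ht with rfl | rfl | rfl | rfl | rfl | rfl | rfl | rfl | rfl <;> simp at h2 <;>
    simp [toV, ofV, h2]

/-- adjacency of labels -/
def adj (Q : QF) (x y : Lb) : Bool :=
  (decide (x.1 = 1 ∧ y.1 = 0) && (decide (x.2.1 = y.2.1) && decide (y.2.1 < Q.1.length))) ||
  ((decide (x.1 = 2 ∧ y.1 = 1) && (decide (x.2.1 = y.2.1) && (decide (y.2.1 < Q.1.length) &&
    ((!Q.1.getD y.2.1 false) || decide (x.2.2 = y.2.2))))) ||
  ((decide (x.1 = 3 ∧ y.1 = 2) && (decide (x.2.1 = y.2.1) && (decide (y.2.1 < Q.1.length) &&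
    decide (x.2.2 = y.2.2)))) ||
  ((decide (x.1 = 0 ∧ y.1 = 3) && (decide (x.2.1 = y.2.1 + 1) && decide (y.2.1 < Q.1.length))) ||
  ((decide (x.1 = 4 ∧ y.1 = 0) && (decide (x.2.1 = y.2.1) && decide (y.2.1 < Q.1.length))) ||
  ((decide (x.1 = 5 ∧ y.1 = 2) && (decide (x.2.1 = y.2.1) && (decide (y.2.1 < Q.1.length) &&
    decide (x.2.2 = y.2.2)))) ||
  ((decide (x.1 = 7 ∧ y.1 = 6) && decide (x.2.1 < Q.2.length)) ||
  ((decide (x.1 = 8 ∧ y.1 = 7) && (decide (x.2.1 < Q.1.length) && (decide (y.2.1 < Q.2.length) &&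
    decide ((x.2.2, x.2.1) ∈ Q.2.getD y.2.1 [])))) ||
  (decide (x.1 = 3 ∧ y.1 = 8) && (decide (x.2.1 = y.2.1) && (decide (y.2.1 < Q.1.length) &&
    decide (x.2.2 = y.2.2)))))))))))

theorem Ed_of_adj {Q : QF} {x y : Lb} (h : adj Q x y = true) : Ed Q (toV x) (toV y) := by
  obtain ⟨t, i, e⟩ := x
  obtain ⟨t', i', e'⟩ := y
  unfold adj at h
  simp only [Bool.or_eq_true, Bool.and_eq_true, decide_eq_true_eq, Bool.not_eq_true'] at h
  rcases h with ⟨⟨rfl, rfl⟩, rfl, h⟩ | ⟨⟨rfl, rfl⟩, rfl, h, h'⟩ | ⟨⟨rfl, rfl⟩, rfl, h, rfl⟩ |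
    ⟨⟨rfl, rfl⟩, rfl, h⟩ | ⟨⟨rfl, rfl⟩, rfl, h⟩ | ⟨⟨rfl, rfl⟩, rfl, h, rfl⟩ | ⟨⟨rfl, rfl⟩, h⟩ |
    ⟨⟨rfl, rfl⟩, h, h', h''⟩ | ⟨⟨rfl, rfl⟩, rfl, h, rfl⟩
  · exact Ed.os _ _ h
  · refine Ed.no _ _ _ h fun hq => ?_
    rcases h' with h' | h'
    · rw [h'] at hq
      simp at hq
    · exact h'
  · exact Ed.kn _ _ h
  · exact Ed.sk _ _ h
  · exact Ed.as _ h
  · exact Ed.bn _ _ h
  · exact Ed.cq _ h
  · exact Ed.lc _ _ _ h h' h''
  · exact Ed.kl _ _ h

theorem adj_of_Ed {Q : QF} {u v : Vx} (h : Ed Q u v) : adj Q (ofV u) (ofV v) = true := by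
  unfold adj
  simp only [Bool.or_eq_true, Bool.and_eq_true, decide_eq_true_eq, Bool.not_eq_true']
  cases h with
  | os i e h => simp [ofV, h]
  | no i e e' h h' =>
    by_cases hq : Q.1.getD i false = true
    · simp [ofV, h, h' hq]
    · rw [Bool.not_eq_true] at hq
      simp only [ofV, hq, h]
      simp
  | kn i e h => simp [ofV, h]
  | sk i e h => simp [ofV, h]
  | as i h => simp [ofV, h]
  | bn i e h => simp [ofV, h]
  | cq j h => simp [ofV, h]
  | lc i e j h h' hm => simp only [ofV, h, h', hm]; simp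
  | kl i e h => simp [ofV, h]

theorem adj_iff {Q : QF} {x y : Lb} (hx : x ∈ VL Q) (hy : y ∈ VL Q) :
    adj Q x y = true ↔ Ed Q (toV x) (toV y) := by
  rw [mem_VL] at hx hy
  refine ⟨Ed_of_adj, fun h => ?_⟩
  have := adj_of_Ed h
  rwa [ofV_toV hx.1.1 hx.2, ofV_toV hy.1.1 hy.2] at this

theorem mem_of_Ed {Q : QF} {u v : Vx} (h : Ed Q u v) : ofV u ∈ VL Q ∧ ofV v ∈ VL Q := by
  rw [mem_VL, mem_VL]
  cases h with
  | os i e h => simp [ofV, okL]; omega
  | no i e e' h h' => simp [ofV, okL]; omega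
  | kn i e h => simp [ofV, okL]; omega
  | sk i e h => simp [ofV, okL]; omega
  | as i h => simp [ofV, okL]; omega
  | bn i e h => simp [ofV, okL]; omega
  | cq j h => simp [ofV, okL]; omega
  | lc i e j h h' hm => simp [ofV, okL]; omega
  | kl i e h => simp [ofV, okL]; omega

/-- the initial tokens -/
def oL (x : Lb) : Option Bool :=
  if x.1 = 0 then (if x.2.1 = 0 then none else some true)
  else if x.1 = 6 then none
  else if x.1 = 1 ∨ x.1 = 3 ∨ x.1 = 7 then some false else some true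

theorem oL_eq {x : Lb} (hx : x.1 < 9) (y z : ℕ → Bool) : oL x = oc 0 y z (toV x) := by
  obtain ⟨t, i, e⟩ := x
  simp only at hx
  have ht : t = 0 ∨ t = 1 ∨ t = 2 ∨ t = 3 ∨ t = 4 ∨ t = 5 ∨ t = 6 ∨ t = 7 ∨ t = 8 := by omega
  rcases ht with rfl | rfl | rfl | rfl | rfl | rfl | rfl | rfl | rfl <;>
    simp [oL, oc, toV]

/-- the arcs on the indices -/
def eF (Q : QF) (i j : Fin (VL Q).length) : Bool := adj Q (VL Q)[i] (VL Q)[j]

/-- the tokens on the indices -/
def oF (Q : QF) (i : Fin (VL Q).length) : Option Bool := oL (VL Q)[i]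

/-- the instance -/
def iQ (Q : QF) : Cd :=
  ((VL Q).map fun x => (VL Q).map fun y => adj Q x y, (VL Q).map oL, false)

theorem code_F (Q : QF) : code (eF Q) (oF Q) false = iQ Q := by
  unfold code iQ
  refine Prod.ext ?_ (Prod.ext ?_ rfl)
  · simp only
    refine List.ext_getElem (by simp) fun i hi hi' => ?_
    rw [List.getElem_ofFn, List.getElem_map]
    refine List.ext_getElem (by simp) fun j hj hj' => ?_
    rw [List.getElem_ofFn, List.getElem_map]
    rfl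
  · simp only
    refine List.ext_getElem (by simp) fun i hi hi' => ?_
    rw [List.getElem_ofFn, List.getElem_map]
    rfl

/-- the vertex of an index -/
def vF (Q : QF) (i : Fin (VL Q).length) : Vx := toV (VL Q)[i]

theorem vF_inj {Q : QF} {i j : Fin (VL Q).length} (h : vF Q i = vF Q j) : i = j := by
  have h1 := mem_VL.1 (show (VL Q)[i] ∈ VL Q from List.getElem_mem i.isLt)
  have h2 := mem_VL.1 (show (VL Q)[j] ∈ VL Q from List.getElem_mem j.isLt)
  have h3 : (VL Q)[i] = (VL Q)[j] := by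
    rw [← ofV_toV h1.1.1 h1.2, ← ofV_toV h2.1.1 h2.2]
    exact congrArg ofV h
  exact Fin.ext ((List.Nodup.getElem_inj_iff (nodup_VL Q)).1 h3)

theorem eF_iff {Q : QF} {i j : Fin (VL Q).length} : eF Q i j = true ↔ Ed Q (vF Q i) (vF Q j) :=
  adj_iff (List.getElem_mem i.isLt) (List.getElem_mem j.isLt)

theorem vF_surj {Q : QF} {x : Lb} (h : x ∈ VL Q) : ∃ i, vF Q i = toV x ∧ (VL Q)[i] = x := by
  obtain ⟨i, hi, h⟩ := List.getElem_of_mem h
  exact ⟨⟨i, hi⟩, by unfold vF; simp [h], h⟩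

theorem Ed_lift {Q : QF} {u v : Vx} (h : Ed Q u v) :
    ∃ i j, vF Q i = u ∧ vF Q j = v ∧ eF Q i j = true := by
  obtain ⟨h1, h2⟩ := mem_of_Ed h
  obtain ⟨i, hi, _⟩ := vF_surj h1
  obtain ⟨j, hj, _⟩ := vF_surj h2
  rw [toV_ofV] at hi hj
  exact ⟨i, j, hi, hj, by rw [eF_iff, hi, hj]; exact h⟩

/-- the relation between positions -/
def Bs (Q : QF) (a : (Fin (VL Q).length → Option Bool) × Bool) (b : (Vx → Option Bool) × Bool) :
    Prop := a.2 = b.2 ∧ ∀ i, a.1 i = b.1 (vF Q i)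

theorem Bs.next {Q : QF} {a : (Fin (VL Q).length → Option Bool) × Bool}
    {b : (Vx → Option Bool) × Bool} (h : Bs Q a b) (i j : Fin (VL Q).length) :
    Bs Q (moveTo a.1 i j, !a.2) (moveTo b.1 (vF Q i) (vF Q j), !b.2) := by
  refine ⟨by simp [h.1], fun w => ?_⟩
  simp only [moveTo]
  by_cases h1 : w = j
  · subst h1
    rw [if_pos rfl, if_pos rfl, h.2]
  · have h1' : ¬ vF Q w = vF Q j := fun e => h1 (vF_inj e)
    rw [if_neg h1, if_neg h1']
    by_cases h2 : w = i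
    · subst h2
      rw [if_pos rfl, if_pos rfl]
    · have h2' : ¬ vF Q w = vF Q i := fun e => h2 (vF_inj e)
      rw [if_neg h2, if_neg h2', h.2]

theorem W_F {Q : QF} {a : (Fin (VL Q).length → Option Bool) × Bool}
    {b : (Vx → Option Bool) × Bool} (h : Bs Q a b) :
    W (mvB fun i j => eF Q i j = true) a ↔ W (mvB (Ed Q)) b := by
  refine W_iff_bisim (Bs Q) ?_ ?_ h
  · rintro a b a' h ⟨i, j, hE, hi, hj, rfl⟩
    exact ⟨_, ⟨vF Q i, vF Q j, eF_iff.1 hE, by rw [← h.2, ← h.1]; exact hi,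
      by rw [← h.2]; exact hj, rfl⟩, h.next i j⟩
  · rintro a b b' h ⟨u, v, hE, hu, hv, rfl⟩
    obtain ⟨i, j, rfl, rfl, hE'⟩ := Ed_lift hE
    exact ⟨_, ⟨i, j, hE', by rw [h.2, h.1]; exact hu, by rw [h.2]; exact hv, rfl⟩, h.next i j⟩

/-- the heights of the vertices -/
def rk (v : Vx) : ℕ :=
  match v with
  | Vx.m i => 4 * i + 3
  | Vx.o i _ => 4 * i + 4
  | Vx.n i _ => 4 * i + 5
  | Vx.k i _ => 4 * i + 6
  | Vx.a i => 4 * i + 4
  | Vx.b i _ => 4 * i + 6
  | Vx.q => 0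
  | Vx.c _ => 1
  | Vx.l _ _ => 2

theorem rk_lt {Q : QF} {u v : Vx} (h : Ed Q u v) : rk v < rk u := by
  cases h <;> simp only [rk] <;> omega

theorem rkF_lt {Q : QF} {i j : Fin (VL Q).length} (h : eF Q i j = true) :
    rk (vF Q j) < rk (vF Q i) := rk_lt (eF_iff.1 h)

theorem acyclic_F (Q : QF) : Acyclic (eF Q) := by
  intro x hx
  have key : ∀ y, Relation.TransGen (fun x y => eF Q x y = true) x y →
      rk (vF Q y) < rk (vF Q x) := by
    intro y hy
    induction hy with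
    | single h' => exact rkF_lt h'
    | tail _ h' ih => exact (rkF_lt h').trans ih
  exact lt_irrefl _ (key x hx)

theorem Bs_init (Q : QF) : Bs Q (oF Q, false)
    (oc 0 (fun _ => false) (fun _ => false), false) := by
  refine ⟨rfl, fun i => ?_⟩
  exact oL_eq (mem_VL.1 (List.getElem_mem i.isLt)).1.1 _ _

theorem moverWins_F {Q : QF} (hQ : QFwf Q) :
    MoverWins (fun i j => eF Q i j = true) false (oF Q) ↔
      ¬ evq Q.1 (fun w => evc w Q.2) = true := by
  rw [moverWins_iff]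
  constructor
  · intro hW hev
    rw [W_F (Bs_init Q)] at hW
    exact loses_of_true hQ hev hW
  · intro hev
    rw [Bool.not_eq_true] at hev
    obtain ⟨b, hb, hW⟩ := wins_of_false hQ hev
    have wf : WellFounded fun b a => mvB (fun i j => eF Q i j = true) a b :=
      wf_mvB (h := fun i => rk (vF Q i)) fun u v h => rkF_lt h
    rw [W_iff wf]
    obtain ⟨u, v, hE, hu, hv, rfl⟩ := hb
    obtain ⟨i, j, rfl, rfl, hE'⟩ := Ed_lift hE
    have hB := Bs_init Q
    refine ⟨_, ⟨i, j, hE', ?_, ?_, rfl⟩, ?_⟩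
    · rw [hB.2 i, hB.1]
      exact hu
    · rw [hB.2 j]
      exact hv
    · rw [W_F (hB.next i j)]
      exact hW

theorem nbDag_iQ {Q : QF} (hQ : QFwf Q) :
    NBDag (iQ Q) ↔ ¬ evq Q.1 (fun w => evc w Q.2) = true := by
  rw [← moverWins_F hQ]
  constructor
  · rintro ⟨n, E, o, p, hc, h, hW⟩
    rw [← code_F] at hc
    exact code_inj' hc (fun n E o p => MoverWins (fun i j => E i j = true) p o) hW
  · intro h
    exact ⟨_, eF Q, oF Q, false, code_F Q, acyclic_F Q, h⟩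

theorem oL_none {x : Lb} (h1 : x.1 < 9) (h2 : okL x = true) :
    oL x = none ↔ x = (0, 0, false) ∨ x = (6, 0, false) := by
  obtain ⟨t, i, e⟩ := x
  simp only at h1
  unfold okL at h2
  have ht : t = 0 ∨ t = 1 ∨ t = 2 ∨ t = 3 ∨ t = 4 ∨ t = 5 ∨ t = 6 ∨ t = 7 ∨ t = 8 := by omega
  rcases ht with rfl | rfl | rfl | rfl | rfl | rfl | rfl | rfl | rfl <;> simp at h2 <;>
    simp [oL, h2]

theorem vacant_F (Q : QF) : {i | oF Q i = none}.ncard = 2 := by
  obtain ⟨i, hi, hi'⟩ := vF_surj (Q := Q) (x := (0, 0, false)) (mem_VL.2 (by simp [okL]))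
  obtain ⟨j, hj, hj'⟩ := vF_surj (Q := Q) (x := (6, 0, false)) (mem_VL.2 (by simp [okL]))
  have hij : i ≠ j := by
    rintro rfl
    rw [hi'] at hj'
    simp at hj'
  have : {i | oF Q i = none} = {i, j} := by
    ext w
    have h1 := mem_VL.1 (show (VL Q)[w] ∈ VL Q from List.getElem_mem w.isLt)
    simp only [Set.mem_setOf_eq, Set.mem_insert_iff, Set.mem_singleton_iff]
    unfold oF
    rw [oL_none h1.1.1 h1.2, ← hi', ← hj']
    refine or_congr ⟨fun h => ?_, fun h => by rw [h]⟩ ⟨fun h => ?_, fun h => by rw [h]⟩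
    · exact Fin.ext ((List.Nodup.getElem_inj_iff (nodup_VL Q)).1 h)
    · exact Fin.ext ((List.Nodup.getElem_inj_iff (nodup_VL Q)).1 h)
  rw [this, Set.ncard_pair hij]

theorem nbDagTwo_iQ {Q : QF} (hQ : QFwf Q) :
    NBDagTwo (iQ Q) ↔ ¬ evq Q.1 (fun w => evc w Q.2) = true := by
  rw [← moverWins_F hQ]
  constructor
  · rintro ⟨n, E, o, p, hc, h, h2, hW⟩
    rw [← code_F] at hc
    exact code_inj' hc (fun n E o p => MoverWins (fun i j => E i j = true) p o) hW
  · intro h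
    exact ⟨_, eF Q, oF Q, false, code_F Q, acyclic_F Q, vacant_F Q, h⟩

/-! ### Polynomial time -/

theorem poly_VL : Poly VL := by
  unfold VL
  have h1 : UPoly (fun Q : QF => Q.1.length + Q.2.length + 1) :=
    ((UPoly.length (l := fun Q : QF => Q.1) (by fun_prop)).add
      (UPoly.length (l := fun Q : QF => Q.2) (by fun_prop))).add (UPoly.const 1)
  have h2 := h1.range
  have h3 : Poly (fun Q : QF => List.range 9) := NPC.Poly.const _
  have h4 : Poly (fun Q : QF => [false, true]) := NPC.Poly.const _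
  refine NPC.Poly.filter (l := fun Q : QF => List.range 9 ×ˢ
    (List.range (Q.1.length + Q.2.length + 1) ×ˢ [false, true])) (p := fun _ x => okL x)
    (by fun_prop) ?_
  unfold okL
  fun_prop

theorem poly_adj : Poly (fun p : (QF × Lb) × Lb => adj p.1.1 p.1.2 p.2) := by
  unfold adj
  have h1 : Poly (fun p : (QF × Lb) × Lb => p.1.1.1.length) :=
    UPoly.toPoly (UPoly.length (l := fun p : (QF × Lb) × Lb => p.1.1.1) (by fun_prop))
  have h2 : Poly (fun p : (QF × Lb) × Lb => p.1.1.2.length) :=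
    UPoly.toPoly (UPoly.length (l := fun p : (QF × Lb) × Lb => p.1.1.2) (by fun_prop))
  fun_prop

theorem poly_iQ : Poly iQ := by
  unfold iQ
  have hv := poly_VL
  refine NPC.Poly.pair ?_ (NPC.Poly.pair ?_ (NPC.Poly.const _))
  · refine NPC.Poly.map (l := VL) (F := fun Q x => (VL Q).map fun y => adj Q x y) hv ?_
    exact NPC.Poly.map (l := fun p : QF × Lb => VL p.1) (F := fun p y => adj p.1 p.2 y)
      (hv.comp (Poly.fst Poly.id)) poly_adj
  · refine NPC.Poly.map (l := VL) (F := fun _ x => oL x) hv ?_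
    unfold oL
    fun_prop

/-! ### Hardness -/

theorem nbDag_hard : PSPACEHard (lang NBDag) := by
  intro L hL
  obtain ⟨f, hf, hwf, hf'⟩ := qbf_hard (inPSPACE_compl hL)
  exact ⟨fun x => bits (iQ (f x)), polyTime_bits (poly_iQ.comp hf), fun x => by
    rw [bits_mem_lang, nbDag_iQ (hwf x), ← hf' x, Set.mem_compl_iff, not_not]⟩

theorem nbDagTwo_hard : PSPACEHard (lang NBDagTwo) := by
  intro L hL
  obtain ⟨f, hf, hwf, hf'⟩ := qbf_hard (inPSPACE_compl hL)
  exact ⟨fun x => bits (iQ (f x)), polyTime_bits (poly_iQ.comp hf), fun x => by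
    rw [bits_mem_lang, nbDagTwo_iQ (hwf x), ← hf' x, Set.mem_compl_iff, not_not]⟩

theorem nbDag_complete : PSPACEComplete (lang NBDag) := ⟨nbDag_mem, nbDag_hard⟩

end Pool.Agent.Q227.NB
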