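import Pool.Agent.Q227.PX.Str
import Pool.Agent.Q227.NB.Bis

/-!
# The game of a quantified formula
-/

namespace Pool.Agent.Q227.NB

open Pool.Agent.H656R2.AK Pool.Agent.H623R2.PS Pool.Agent.Q227.PX

/-- the vertices -/
inductive Vx
  | m (i : ℕ)
  | o (i : ℕ) (e : Bool)
  | n (i : ℕ) (e : Bool)
  | k (i : ℕ) (e : Bool)
  | a (i : ℕ)
  | b (i : ℕ) (e : Bool)
  | q
  | c (j : ℕ)
  | l (i : ℕ) (e : Bool)
  deriving DecidableEq

open Vx

/-- the arcs -/
inductive Ed (Q : QF) : Vx → Vx → Prop
  | os (i : ℕ) (e : Bool) (h : i < Q.1.length) : Ed Q (o i e) (m i)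
  | no (i : ℕ) (e e' : Bool) (h : i < Q.1.length) (h' : Q.1.getD i false = true → e' = e) :
      Ed Q (n i e') (o i e)
  | kn (i : ℕ) (e : Bool) (h : i < Q.1.length) : Ed Q (k i e) (n i e)
  | sk (i : ℕ) (e : Bool) (h : i < Q.1.length) : Ed Q (m (i + 1)) (k i e)
  | as (i : ℕ) (h : i < Q.1.length) : Ed Q (a i) (m i)
  | bn (i : ℕ) (e : Bool) (h : i < Q.1.length) : Ed Q (b i e) (n i e)
  | cq (j : ℕ) (h : j < Q.2.length) : Ed Q (c j) q
  | lc (i : ℕ) (e : Bool) (j : ℕ) (h : i < Q.1.length) (h' : j < Q.2.length)
      (hm : (e, i) ∈ Q.2.getD j []) : Ed Q (l i e) (c j)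
  | kl (i : ℕ) (e : Bool) (h : i < Q.1.length) : Ed Q (k i e) (l i e)

/-- the main positions -/
def oc (i : ℕ) (x y : ℕ → Bool) : Vx → Option Bool
  | m j => if j < i then some false else if j = i then none else some true
  | o j e => if j < i ∧ e = x j then some true else some false
  | n j e => if j < i ∧ e = y j then some false else some true
  | k j e => if j < i ∧ e = y j then some true else some false
  | a _ => some true
  | b _ _ => some true
  | q => none
  | c _ => some false
  | l _ _ => some true

theorem oc_congr {i : ℕ} {x x' y y' : ℕ → Bool} (hx : ∀ j < i, x j = x' j)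
    (hy : ∀ j < i, y j = y' j) : oc i x y = oc i x' y' := by
  funext v
  cases v with
  | m j => rfl
  | o j e =>
    unfold oc
    by_cases h : j < i
    · simp only [hx j h]
    · simp only [h, false_and]
  | n j e =>
    unfold oc
    by_cases h : j < i
    · simp only [hy j h]
    · simp only [h, false_and]
  | k j e =>
    unfold oc
    by_cases h : j < i
    · simp only [hy j h]
    · simp only [h, false_and]
  | a _ => rfl
  | b _ _ => rfl
  | q => rfl
  | c _ => rfl
  | l _ _ => rfl

/-- after the first move of a block -/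
def oc1 (i : ℕ) (x y : ℕ → Bool) (e : Bool) : Vx → Option Bool := moveTo (oc i x y) (o i e) (m i)

/-- after the second move of a block -/
def oc2 (i : ℕ) (x y : ℕ → Bool) (e e' : Bool) : Vx → Option Bool :=
  moveTo (oc1 i x y e) (n i e') (o i e)

/-- after the third move of a block -/
def oc3 (i : ℕ) (x y : ℕ → Bool) (e e' : Bool) : Vx → Option Bool :=
  moveTo (oc2 i x y e e') (k i e') (n i e')

theorem oc4 (i : ℕ) (x y : ℕ → Bool) :
    moveTo (oc3 i x y (x i) (y i)) (m (i + 1)) (k i (y i)) = oc (i + 1) x y := by
  funext v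
  unfold oc3 oc2 oc1
  cases v with
  | m j =>
    simp only [moveTo, oc, reduceCtorEq, if_false, m.injEq]
    rcases Nat.lt_trichotomy j i with h | h | h
    · have h1 : ¬ j = i + 1 := by omega
      have h2 : ¬ j = i := by omega
      have h3 : j < i + 1 := by omega
      simp [h, h1, h2, h3]
    · subst h
      simp
    · by_cases h1 : j = i + 1
      · simp [h1]
      · have h2 : ¬ j = i := by omega
        have h3 : ¬ j < i := by omega
        have h4 : ¬ j < i + 1 := by omega
        simp [h1, h2, h3, h4]
  | o j e =>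
    simp only [moveTo, oc, reduceCtorEq, if_false, o.injEq]
    by_cases h : j = i
    · subst h
      by_cases he : e = x j
      · simp [he]
      · simp [he]
    · by_cases h1 : j < i
      · have h3 : j < i + 1 := by omega
        simp [h, h1, h3]
      · have h3 : ¬ j < i + 1 := by omega
        simp [h, h1, h3]
  | n j e =>
    simp only [moveTo, oc, reduceCtorEq, if_false, n.injEq]
    by_cases h : j = i
    · subst h
      by_cases he : e = y j
      · simp [he]
      · simp [he]
    · by_cases h1 : j < i
      · have h3 : j < i + 1 := by omega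
        simp [h, h1, h3]
      · have h3 : ¬ j < i + 1 := by omega
        simp [h, h1, h3]
  | k j e =>
    simp only [moveTo, oc, reduceCtorEq, if_false, k.injEq]
    by_cases h : j = i
    · subst h
      by_cases he : e = y j
      · simp [he]
      · simp [he]
    · by_cases h1 : j < i
      · have h3 : j < i + 1 := by omega
        simp [h, h1, h3]
      · have h3 : ¬ j < i + 1 := by omega
        simp [h, h1, h3]
  | a j => simp [moveTo, oc]
  | b j e => simp [moveTo, oc]
  | q => simp [moveTo, oc]
  | c j => simp [moveTo, oc]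
  | l j e => simp [moveTo, oc]

variable {Q : QF} {sk : (ℕ → Bool) → ℕ → Bool}

/-- the player to move has no legal move -/
def Stk (Q : QF) (st : (Vx → Option Bool) × Bool) : Prop :=
  ∀ u v, Ed Q u v → st.1 u = some st.2 → st.1 v = none → False

theorem exists_Sg (Q : QF) : ∃ sk, Sg Q (evq Q.1 fun w => evc w Q.2) sk := by
  by_cases hev : evq Q.1 (fun w => evc w Q.2) = true
  · rw [hev]
    have hev' : evq (Q.1.map not) (fun u => !evc u Q.2) = false := by
      rw [evq_not, hev]
      rfl
    obtain ⟨sk, h1, h2, h3⟩ := Pool.Agent.Q227.WD.exists_sk _ _ hev'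
    have hg : ∀ i, i < Q.1.length → ∀ d, (Q.1.map not).getD i d = !Q.1.getD i false := by
      intro i hi d
      rw [List.getD_eq_getElem _ _ (by simpa using hi), List.getD_eq_getElem _ _ hi]
      simp
    refine ⟨sk, ?_, ?_, ?_⟩
    · intro x i hi hne
      refine h1 x i ?_
      rw [hg i hi]
      simpa using hne
    · intro x x' i hi hx hne
      refine h2 x x' i hx ?_
      rw [hg i hi]
      exact hne
    · intro x
      have := h3 x
      rw [List.length_map] at this
      simpa using this
  · rw [Bool.not_eq_true] at hev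
    rw [hev]
    obtain ⟨sk, h1, h2, h3⟩ := Pool.Agent.Q227.WD.exists_sk _ _ hev
    refine ⟨sk, ?_, ?_, h3⟩
    · intro x i hi hne
      refine h1 x i ?_
      rw [List.getD_eq_getElem _ _ hi] at hne ⊢
      simpa using hne
    · intro x x' i hi hx hne
      exact h2 x x' i hx (by simpa using hne)

/-- changing the assignment at `i` does not change the strategy below `i` -/
theorem sk_congr {X : Bool} (hs : Sg Q X sk) {z z' : ℕ → Bool} {i : ℕ} (hi : i ≤ Q.1.length)
    (h : ∀ j < i, z j = z' j) : ∀ j < i, sk z j = sk z' j := by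
  intro j hj
  by_cases hX : (!Q.1.getD j false) = X
  · exact hs.l z z' j (by omega) (fun j' hj' => h j' (by omega)) hX
  · rw [hs.e z j (by omega) hX, hs.e z' j (by omega) hX, h j hj]

/-! ### The formula is true -/

/-- the positions with the universal player to move -/
def PL (Q : QF) (sk : (ℕ → Bool) → ℕ → Bool) (st : (Vx → Option Bool) × Bool) : Prop :=
  (∃ i z, i ≤ Q.1.length ∧ st = (oc i z (sk z), false)) ∨
  (∃ i z, i < Q.1.length ∧ st = (oc2 i z (sk z) (z i) (sk z i), false)) ∨ Stk Q st

theorem PL_step (hs : Sg Q true sk) (hQ : QFwf Q) {a b : (Vx → Option Bool) × Bool}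
    (ha : PL Q sk a) (hab : mvB (Ed Q) a b) : ∃ c, mvB (Ed Q) b c ∧ PL Q sk c := by
  obtain ⟨u, v, hE, hu, hv, rfl⟩ := hab
  rcases ha with ⟨i, z, hi, rfl⟩ | ⟨i, z, hi, rfl⟩ | ha
  · simp only at hu hv
    cases hE with
    | os j e h =>
      have hj : j = i := by
        by_contra hne
        simp only [oc, hne, if_false] at hv <;> split_ifs at hv
      subst hj
      set z' : ℕ → Bool := fun j' => if j' = j then e else z j' with hz'
      have hz1 : ∀ j' < j, z j' = z' j' := by
        intro j' hj'
        rw [hz']
        simp only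
        rw [if_neg (by omega)]
      have hz2 : z' j = e := by rw [hz']; simp
      have hoc : oc j z (sk z) = oc j z' (sk z') := oc_congr hz1 (sk_congr hs hi hz1)
      have h1 : moveTo (oc j z (sk z)) (o j e) (m j) = oc1 j z' (sk z') (z' j) := by
        rw [hoc, oc1, hz2]
      rw [h1]
      refine ⟨(oc2 j z' (sk z') (z' j) (sk z' j), false), ⟨n j (sk z' j), o j (z' j),
        Ed.no j (z' j) (sk z' j) h ?_, ?_, ?_, rfl⟩, Or.inr (Or.inl ⟨j, z', h, rfl⟩)⟩
      · intro hq
        exact hs.e z' j h (by rw [hq]; simp)
      · simp [oc1, moveTo, oc]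
      · simp [oc1, moveTo, oc]
    | no j e e' h h' => simp [oc] at hv <;> split_ifs at hv
    | kn j e h => simp [oc] at hv <;> split_ifs at hv
    | sk j e h => simp [oc] at hv <;> split_ifs at hv
    | as j h => simp [oc] at hu
    | bn j e h => simp [oc] at hu
    | cq j h =>
      by_cases hiN : i < Q.1.length
      · refine ⟨_, ⟨Vx.a i, m i, Ed.as i hiN, ?_, ?_, rfl⟩, Or.inr (Or.inr ?_)⟩
        · simp [moveTo, oc]
        · simp [moveTo, oc]
        · intro u v hE hu hv
          cases hE with
          | os j' e h =>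
            by_cases hj : j' = i
            · subst hj
              simp [moveTo, oc] at hv
            · simp [moveTo, oc, hj] at hv <;> split_ifs at hv
          | no j' e e' h h' => simp [moveTo, oc] at hv <;> split_ifs at hv
          | kn j' e h => simp [moveTo, oc] at hv <;> split_ifs at hv
          | sk j' e h => simp [moveTo, oc] at hv <;> split_ifs at hv
          | as j' h => simp [moveTo, oc] at hu <;> split_ifs at hu
          | bn j' e h => simp [moveTo, oc] at hu
          | cq j' h => simp [moveTo, oc] at hv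
          | lc i' e j' h h' hm => simp [moveTo, oc] at hu
          | kl i' e h => simp [moveTo, oc] at hv
      · have hiN' : i = Q.1.length := by omega
        have hf := hs.f z
        have hf' : ¬ ∃ c ∈ Q.2, ∀ l ∈ c, sk z l.2 = !l.1 := by
          rw [← evc_false_iff hQ, hf]
          simp
        push Not at hf'
        have hmem : Q.2.getD j [] ∈ Q.2 := by
          rw [List.getD_eq_getElem _ _ h]
          exact List.getElem_mem _
        obtain ⟨⟨e, i'⟩, hl, hl'⟩ := hf' (Q.2.getD j []) hmem
        have hi' : i' < Q.1.length := hQ _ hmem _ hl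
        have hl2 : e = sk z i' := by
          simp only at hl'
          revert hl'
          cases e <;> cases sk z i' <;> simp
        refine ⟨_, ⟨Vx.l i' e, c j, Ed.lc i' e j hi' h hl, ?_, ?_, rfl⟩, Or.inr (Or.inr ?_)⟩
        · simp [moveTo, oc]
        · simp [moveTo, oc]
        · intro u v hE hu hv
          cases hE with
          | os j' e h =>
            have hj : ¬ j' = i := by omega
            simp [moveTo, oc, hj] at hv <;> split_ifs at hv
          | no j' e e' h h' => simp [moveTo, oc] at hv <;> split_ifs at hv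
          | kn j' e h => simp [moveTo, oc] at hv <;> split_ifs at hv
          | sk j' e h => simp [moveTo, oc] at hv <;> split_ifs at hv
          | as j' h => simp [moveTo, oc] at hu
          | bn j' e h => simp [moveTo, oc] at hu
          | cq j' h => simp [moveTo, oc] at hv
          | lc i'' e j' h h' hm =>
            by_cases hj : j' = j
            · simp [moveTo, oc, hj] at hv <;> split_ifs at hv
            · simp [moveTo, oc, hj] at hv <;> split_ifs at hv
          | kl i'' e'' h =>
            by_cases hj : i'' = i' ∧ e'' = e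
            · obtain ⟨rfl, rfl⟩ := hj
              have h5 : i'' < i := by omega
              simp [moveTo, oc, h5, ← hl2] at hu
            · simp [moveTo, oc, hj] at hv <;> split_ifs at hv
    | lc i' e j h h' hm => simp [oc] at hv
    | kl i' e h => simp [oc] at hv
  · simp only at hu hv
    cases hE with
    | os j e h =>
      by_cases hj : j = i
      · subst hj
        simp [oc2, oc1, moveTo, oc] at hv
      · simp [oc2, oc1, moveTo, oc, hj] at hv <;> split_ifs at hv
    | no j e e' h h' =>
      by_cases hj : j = i ∧ e = z i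
      · obtain ⟨rfl, rfl⟩ := hj
        simp [oc2, oc1, moveTo, oc] at hv
      · simp [oc2, oc1, moveTo, oc, hj] at hv <;> split_ifs at hv
    | kn j e h =>
      have hj : j = i ∧ e = sk z i := by
        by_contra hne
        simp [oc2, oc1, moveTo, oc, hne] at hv <;> split_ifs at hv
      obtain ⟨rfl, rfl⟩ := hj
      refine ⟨(oc (j + 1) z (sk z), false), ⟨m (j + 1), k j (sk z j), Ed.sk j _ h, ?_, ?_, ?_⟩,
        Or.inl ⟨j + 1, z, h, rfl⟩⟩
      · simp [oc2, oc1, moveTo, oc]
      · simp [oc2, oc1, moveTo, oc]
      · have := oc4 j z (sk z)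
        unfold oc3 at this
        rw [← this]
        rfl
    | sk j e h => simp [oc2, oc1, moveTo, oc] at hv <;> split_ifs at hv
    | as j h => simp [oc2, oc1, moveTo, oc] at hu
    | bn j e h => simp [oc2, oc1, moveTo, oc] at hu
    | cq j h =>
      refine ⟨_, ⟨Vx.b i (sk z i), n i (sk z i), Ed.bn i _ hi, ?_, ?_, rfl⟩, Or.inr (Or.inr ?_)⟩
      · simp [oc2, oc1, moveTo, oc]
      · simp [oc2, oc1, moveTo, oc]
      · intro u v hE hu hv
        cases hE with
        | os j' e h =>
          by_cases hj : j' = i
          · subst hj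
            simp [oc2, oc1, moveTo, oc] at hv
          · simp [oc2, oc1, moveTo, oc, hj] at hv <;> split_ifs at hv
        | no j' e e' h h' =>
          by_cases hj : j' = i ∧ e = z i
          · obtain ⟨rfl, rfl⟩ := hj
            simp [oc2, oc1, moveTo, oc] at hv
          · simp [oc2, oc1, moveTo, oc, hj] at hv <;> split_ifs at hv
        | kn j' e h =>
          by_cases hj : j' = i ∧ e = sk z i
          · obtain ⟨rfl, rfl⟩ := hj
            simp [oc2, oc1, moveTo, oc] at hv
          · simp [oc2, oc1, moveTo, oc, hj] at hv <;> split_ifs at hv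
        | sk j' e h => simp [oc2, oc1, moveTo, oc] at hv <;> split_ifs at hv
        | as j' h => simp [oc2, oc1, moveTo, oc] at hu
        | bn j' e h => simp [oc2, oc1, moveTo, oc] at hu
        | cq j' h => simp [oc2, oc1, moveTo, oc] at hv
        | lc i' e j' h h' hm => simp [oc2, oc1, moveTo, oc] at hu
        | kl i' e h => simp [oc2, oc1, moveTo, oc] at hv
    | lc i' e j h h' hm => simp [oc2, oc1, moveTo, oc] at hv
    | kl i' e h => simp [oc2, oc1, moveTo, oc] at hv
  · exact absurd hv (fun hv => ha u v hE hu hv)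

/-! ### The formula is false -/

/-- the choices of the universal player -/
def xx (Q : QF) (sk : (ℕ → Bool) → ℕ → Bool) (z : ℕ → Bool) (j : ℕ) : Bool :=
  if Q.1.getD j false = true then sk z j else false

/-- the positions with the existential player to move -/
def PR (Q : QF) (sk : (ℕ → Bool) → ℕ → Bool) (st : (Vx → Option Bool) × Bool) : Prop :=
  (∃ i z, i < Q.1.length ∧ st = (oc1 i (xx Q sk z) (sk z) (xx Q sk z i), true)) ∨
  (∃ i z, i < Q.1.length ∧ st = (oc3 i (xx Q sk z) (sk z) (xx Q sk z i) (sk z i), true)) ∨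
  (∃ j z, j < Q.2.length ∧ (∀ l ∈ Q.2.getD j [], sk z l.2 = !l.1) ∧
    st = (moveTo (oc Q.1.length (xx Q sk z) (sk z)) (c j) q, true)) ∨ Stk Q st

theorem xx_congr (hs : Sg Q false sk) {z z' : ℕ → Bool} {i : ℕ} (hi : i ≤ Q.1.length)
    (h : ∀ j < i, z j = z' j) : ∀ j < i, xx Q sk z j = xx Q sk z' j := by
  intro j hj
  unfold xx
  rw [sk_congr hs hi h j hj]

theorem xx_congr' (hs : Sg Q false sk) {z z' : ℕ → Bool} {i : ℕ} (hi : i < Q.1.length)
    (h : ∀ j < i, z j = z' j) : xx Q sk z i = xx Q sk z' i := by
  unfold xx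
  by_cases hq : Q.1.getD i false = true
  · rw [if_pos hq, if_pos hq]
    exact hs.l z z' i hi h (by rw [hq]; rfl)
  · rw [if_neg hq, if_neg hq]

theorem R_move (hs : Sg Q false sk) (hQ : QFwf Q) {i : ℕ} (hi : i ≤ Q.1.length) (z : ℕ → Bool) :
    ∃ c, mvB (Ed Q) (oc i (xx Q sk z) (sk z), false) c ∧ PR Q sk c := by
  by_cases hiN : i < Q.1.length
  · refine ⟨(oc1 i (xx Q sk z) (sk z) (xx Q sk z i), true), ⟨o i (xx Q sk z i), m i,
      Ed.os i _ hiN, ?_, ?_, rfl⟩, Or.inl ⟨i, z, hiN, rfl⟩⟩
    · simp [oc]
    · simp [oc]
  · obtain rfl : i = Q.1.length := by omega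
    obtain ⟨cl, hcl, h⟩ := (evc_false_iff hQ (sk z)).1 (hs.f z)
    obtain ⟨j, hj, rfl⟩ := List.getElem_of_mem hcl
    refine ⟨_, ⟨c j, q, Ed.cq j hj, ?_, ?_, rfl⟩, Or.inr (Or.inr (Or.inl ⟨j, z, hj, ?_, rfl⟩))⟩
    · simp [oc]
    · simp [oc]
    · rw [List.getD_eq_getElem _ _ hj]
      exact h

theorem PR_step (hs : Sg Q false sk) (hQ : QFwf Q) {a b : (Vx → Option Bool) × Bool}
    (ha : PR Q sk a) (hab : mvB (Ed Q) a b) : ∃ c, mvB (Ed Q) b c ∧ PR Q sk c := by
  obtain ⟨u, v, hE, hu, hv, rfl⟩ := hab
  rcases ha with ⟨i, z, hi, rfl⟩ | ⟨i, z, hi, rfl⟩ | ⟨j, z, hj, hl, rfl⟩ | ha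
  · simp only at hu hv
    cases hE with
    | os j e h =>
      by_cases hj : j = i
      · subst hj
        simp [oc1, moveTo, oc] at hv
      · simp [oc1, moveTo, oc, hj] at hv <;> split_ifs at hv
    | no j e e' h h' =>
      have hj : j = i ∧ e = xx Q sk z i := by
        by_contra hne
        simp [oc1, moveTo, oc, hne] at hv <;> split_ifs at hv
      obtain ⟨rfl, rfl⟩ := hj
      set z' : ℕ → Bool := fun j' => if j' = j then e' else z j' with hz'
      have hz1 : ∀ j' < j, z j' = z' j' := by
        intro j' hj'
        rw [hz']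
        simp only
        rw [if_neg (by omega)]
      have hz2 : z' j = e' := by rw [hz']; simp
      have hxx : xx Q sk z j = xx Q sk z' j := xx_congr' hs h hz1
      have hoc : oc j (xx Q sk z) (sk z) = oc j (xx Q sk z') (sk z') :=
        oc_congr (xx_congr hs (by omega) hz1) (sk_congr hs (by omega) hz1)
      have hsk : sk z' j = e' := by
        by_cases hq : Q.1.getD j false = true
        · rw [h' hq, hxx]
          unfold xx
          rw [if_pos hq]
        · rw [hs.e z' j h (by
            rw [Bool.not_eq_true] at hq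
            rw [hq]
            simp), hz2]
      have h1 : moveTo (oc1 j (xx Q sk z) (sk z) (xx Q sk z j)) (n j e') (o j (xx Q sk z j)) =
          oc2 j (xx Q sk z') (sk z') (xx Q sk z' j) (sk z' j) := by
        unfold oc2 oc1
        rw [hoc, hxx, hsk]
      rw [h1]
      refine ⟨(oc3 j (xx Q sk z') (sk z') (xx Q sk z' j) (sk z' j), true), ⟨k j (sk z' j),
        n j (sk z' j), Ed.kn j _ h, ?_, ?_, rfl⟩, Or.inr (Or.inl ⟨j, z', h, rfl⟩)⟩
      · simp [oc2, oc1, moveTo, oc]
      · simp [oc2, oc1, moveTo, oc]
    | kn j e h => simp [oc1, moveTo, oc] at hv <;> split_ifs at hv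
    | sk j e h => simp [oc1, moveTo, oc] at hv <;> split_ifs at hv
    | as j h =>
      by_cases hj : j = i
      · subst hj
        simp [oc1, moveTo, oc] at hv
      · simp [oc1, moveTo, oc, hj] at hv <;> split_ifs at hv
    | bn j e h => simp [oc1, moveTo, oc] at hv <;> split_ifs at hv
    | cq j h => simp [oc1, moveTo, oc] at hu
    | lc i' e j h h' hm => simp [oc1, moveTo, oc] at hv
    | kl i' e h => simp [oc1, moveTo, oc] at hv
  · simp only at hu hv
    cases hE with
    | os j e h =>
      by_cases hj : j = i
      · subst hj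
        simp [oc3, oc2, oc1, moveTo, oc] at hv
      · simp [oc3, oc2, oc1, moveTo, oc, hj] at hv <;> split_ifs at hv
    | no j e e' h h' =>
      by_cases hj : j = i ∧ e = xx Q sk z i
      · obtain ⟨rfl, rfl⟩ := hj
        simp [oc3, oc2, oc1, moveTo, oc] at hv
      · simp [oc3, oc2, oc1, moveTo, oc, hj] at hv <;> split_ifs at hv
    | kn j e h =>
      by_cases hj : j = i ∧ e = sk z i
      · obtain ⟨rfl, rfl⟩ := hj
        simp [oc3, oc2, oc1, moveTo, oc] at hv
      · simp [oc3, oc2, oc1, moveTo, oc, hj] at hv <;> split_ifs at hv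
    | sk j e h =>
      have hj : j = i ∧ e = sk z i := by
        by_contra hne
        simp [oc3, oc2, oc1, moveTo, oc, hne] at hv <;> split_ifs at hv
      obtain ⟨rfl, rfl⟩ := hj
      have h1 : moveTo (oc3 j (xx Q sk z) (sk z) (xx Q sk z j) (sk z j)) (m (j + 1))
          (k j (sk z j)) = oc (j + 1) (xx Q sk z) (sk z) := oc4 _ _ _
      rw [h1]
      exact R_move hs hQ h z
    | as j h =>
      by_cases hj : j = i
      · subst hj
        simp [oc3, oc2, oc1, moveTo, oc] at hv
      · simp [oc3, oc2, oc1, moveTo, oc, hj] at hv <;> split_ifs at hv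
    | bn j e h =>
      by_cases hj : j = i ∧ e = sk z i
      · obtain ⟨rfl, rfl⟩ := hj
        simp [oc3, oc2, oc1, moveTo, oc] at hv
      · simp [oc3, oc2, oc1, moveTo, oc, hj] at hv <;> split_ifs at hv
    | cq j h => simp [oc3, oc2, oc1, moveTo, oc] at hu
    | lc i' e j h h' hm => simp [oc3, oc2, oc1, moveTo, oc] at hv
    | kl i' e h => simp [oc3, oc2, oc1, moveTo, oc] at hv
  · simp only at hu hv
    cases hE with
    | os j' e h =>
      have hj' : ¬ j' = Q.1.length := by omega
      simp [moveTo, oc, hj'] at hv <;> split_ifs at hv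
    | no j' e e' h h' => simp [moveTo, oc] at hv <;> split_ifs at hv
    | kn j' e h => simp [moveTo, oc] at hv <;> split_ifs at hv
    | sk j' e h => simp [moveTo, oc] at hv <;> split_ifs at hv
    | as j' h =>
      have hj' : ¬ j' = Q.1.length := by omega
      simp [moveTo, oc, hj'] at hv <;> split_ifs at hv
    | bn j' e h => simp [moveTo, oc] at hv <;> split_ifs at hv
    | cq j' h => simp [moveTo, oc] at hv
    | lc i' e j' h h' hm =>
      have hj' : j' = j := by
        by_contra hne
        simp [moveTo, oc, hne] at hv <;> split_ifs at hv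
      subst hj'
      have he : ¬ e = sk z i' := by
        have := hl _ hm
        simp only at this
        rw [this]
        cases e <;> simp
      refine ⟨_, ⟨k i' e, Vx.l i' e, Ed.kl i' e h, ?_, ?_, rfl⟩,
        Or.inr (Or.inr (Or.inr ?_))⟩
      · simp [moveTo, oc, he]
      · simp [moveTo, oc]
      · intro u v hE hu hv
        cases hE with
        | os j'' e'' h =>
          have hj' : ¬ j'' = Q.1.length := by omega
          simp [moveTo, oc, hj'] at hv <;> split_ifs at hv
        | no j'' e'' e' h h' => simp [moveTo, oc] at hv <;> split_ifs at hv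
        | kn j'' e'' h => simp [moveTo, oc] at hv <;> split_ifs at hv
        | sk j'' e'' h'' =>
          have h1 : j'' + 1 < Q.1.length ∨ j'' + 1 = Q.1.length := by omega
          rcases h1 with h1 | h1
          · simp [moveTo, oc, h1] at hu
          · simp [moveTo, oc, h1] at hu
        | as j'' h =>
          have hj' : ¬ j'' = Q.1.length := by omega
          simp [moveTo, oc, hj'] at hv <;> split_ifs at hv
        | bn j'' e'' h => simp [moveTo, oc] at hv <;> split_ifs at hv
        | cq j'' h => simp [moveTo, oc] at hv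
        | lc i'' e'' j'' h h' hm =>
          by_cases hj : j'' = j'
          · simp [moveTo, oc, hj] at hv <;> split_ifs at hv
          · simp [moveTo, oc, hj] at hv <;> split_ifs at hv
        | kl i'' e'' h =>
          by_cases hj : i'' = i' ∧ e'' = e
          · obtain ⟨rfl, rfl⟩ := hj
            simp [moveTo, oc] at hv <;> split_ifs at hv
          · simp [moveTo, oc, hj] at hv <;> split_ifs at hv
    | kl i' e h => simp [moveTo, oc] at hv
  · exact absurd hv (fun hv => ha u v hE hu hv)

/-- The universal player loses if he starts and the formula is true. -/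
theorem loses_of_true (hQ : QFwf Q) (h : evq Q.1 (fun w => evc w Q.2) = true) :
    ¬ W (mvB (Ed Q)) (oc 0 (fun _ => false) (fun _ => false), false) := by
  obtain ⟨sk, hs⟩ := exists_Sg Q
  rw [h] at hs
  refine not_W_of_class' (PL Q sk) (fun a b ha hab => PL_step hs hQ ha hab)
    (Or.inl ⟨0, fun _ => false, Nat.zero_le _, ?_⟩)
  rw [oc_congr (x' := fun _ => false) (y' := sk fun _ => false)]
  · intro j hj; omega
  · intro j hj; omega

/-- The universal player has a good first move if the formula is false. -/
theorem wins_of_false (hQ : QFwf Q) (h : evq Q.1 (fun w => evc w Q.2) = false) :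
    ∃ b, mvB (Ed Q) (oc 0 (fun _ => false) (fun _ => false), false) b ∧ ¬ W (mvB (Ed Q)) b := by
  obtain ⟨sk, hs⟩ := exists_Sg Q
  rw [h] at hs
  obtain ⟨b, hb, hP⟩ := R_move hs hQ (Nat.zero_le _) (fun _ => false)
  refine ⟨b, ?_, not_W_of_class' (PR Q sk) (fun a b ha hab => PR_step hs hQ ha hab) hP⟩
  rw [oc_congr (x := fun _ => false) (y := fun _ => false)
    (x' := xx Q sk fun _ => false) (y' := sk fun _ => false)]
  · exact hb
  · intro j hj; omega
  · intro j hj; omega

end Pool.Agent.Q227.NB
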